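import Pool.Agent.H39.HW.SStm

/-!
# Project HW, scheme side: the column sums (parts CRA, CRB)
-/

set_option autoImplicit false
open Classical Finset

namespace Pool.Agent.H50.HW

open Pool.Agent.H39.HW Pool.Agent.H39.HW.Sc

theorem sum_le_ico {s : Finset ℕ} {F : ℕ → ℝ} {C : ℝ} {m n : ℕ} (hs : s ⊆ Finset.Ico m n)
    (hC : 0 ≤ C) (hF : ∀ a ∈ s, F a ≤ C) : ∑ a ∈ s, F a ≤ ((n - m : ℕ) : ℝ) * C := by
  have h1 : ∑ a ∈ s, F a ≤ s.card • C := Finset.sum_le_card_nsmul s F C hF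
  have h2 : s.card ≤ n - m := by simpa using Finset.card_le_card hs
  rw [nsmul_eq_mul] at h1
  have h3 : (s.card : ℝ) ≤ ((n - m : ℕ) : ℝ) := by exact_mod_cast h2
  nlinarith

/-- numerical facts -/
theorem par_facts (x : Prm) (hx : Par x) :
    0 < x.c ∧ x.c ≤ 1 / 2 ∧ x.η ≤ 1 / 10 ^ 5 ∧ x.μ ≤ x.η ∧ 0 < x.θ ∧ x.θ ≤ x.η ∧ 0 < x.μ ∧
    x.g + 8 ≤ x.K ∧ x.μ ≤ (x.v : ℝ) / x.D ∧
    (x.v : ℝ) / x.D - x.μ ≤ (1 + x.η) * x.θ * x.μ ∧ 0 ≤ (x.v : ℝ) / x.D - x.μ ∧
    ((x.K : ℝ) - x.g) * (x.v / x.D) ≤ (3 / 5 * x.c + x.η) * x.θ ∧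
    0 < ((x.K : ℝ) - x.g) * (x.v / x.D) ∧
    ((x.K : ℝ) - x.g) * x.μ ≤ x.η ∧ x.K * x.μ ≤ x.c + x.η ∧ x.c - x.η ≤ x.K * x.μ ∧
    x.J * x.μ ≤ x.η ∧ x.M * x.μ ≤ 1 + x.η := by
  have e0 := hx.e0; have e1 := hx.e1; have c1 := hx.c1; have c2 := hx.c2
  have n0 := hx.n0; have n1 := hx.n1; have t0 := hx.t0; have th := hx.th; have m0 := hx.m0
  have hc : 0 < x.c := by linarith
  have hc2 : x.c ≤ 1 / 2 := by linarith
  have hη : x.η ≤ 1 / 10 ^ 5 := by linarith
  have hμη : x.μ ≤ x.η := by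
    have h1 := hx.e3
    have h2 : (0 : ℝ) ≤ x.e * x.μ := by positivity
    have h3 : x.η * x.θ ≤ x.η * 1 := mul_le_mul_of_nonneg_left (by linarith) n0.le
    nlinarith
  have hKg : x.g + 8 ≤ x.K := by
    have := hx.W1
    omega
  have s2 := abs_le.1 hx.s2
  have hθμ : 0 < x.θ * x.μ := mul_pos t0 m0
  have hv : x.μ ≤ (x.v : ℝ) / x.D := by
    have h1 := s2.1
    have h2 : x.η * x.θ * x.μ ≤ x.θ * x.μ := by
      have : x.η * (x.θ * x.μ) ≤ 1 * (x.θ * x.μ) :=
        mul_le_mul_of_nonneg_right (by linarith) hθμ.le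
      linarith [mul_assoc x.η x.θ x.μ]
    linarith
  have hKg' : (x.g : ℝ) + 8 ≤ x.K := by exact_mod_cast hKg
  have j2 := abs_le.1 hx.j2
  have hX : ((x.K : ℝ) - x.g) * (x.v / x.D) ≤ (3 / 5 * x.c + x.η) * x.θ := by linarith [j2.2]
  have hX0 : 0 < ((x.K : ℝ) - x.g) * (x.v / x.D) :=
    mul_pos (by linarith) (by linarith)
  refine ⟨hc, hc2, hη, hμη, t0, th, m0, hKg, hv, by linarith [s2.2], by linarith, hX, hX0, ?_,
    by linarith [(abs_le.1 hx.k1).2], by linarith [(abs_le.1 hx.k1).1], hx.j1,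
    by linarith [(abs_le.1 hx.m1).2]⟩
  have h1 : ((x.K : ℝ) - x.g) * x.μ ≤ ((x.K : ℝ) - x.g) * (x.v / x.D) :=
    mul_le_mul_of_nonneg_left hv (by linarith)
  have h2 : (3 / 5 * x.c + x.η) * x.θ ≤ 1 * x.θ :=
    mul_le_mul_of_nonneg_right (by linarith) t0.le
  linarith

/-- the demand of a middle block -/
theorem dem_adj (hB : S_BLK) (hC : S_CLD) (x : Prm) (hx : Par x) {a β : ℕ} (ha : a ∈ x.R)
    (hβ : β ∈ x.mid) (hc : β ∈ x.cls a) (hadj : x.adj a β) :
    x.dem a β = (x.v : ℝ) / x.D := by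
  have h1 := (hC x hx a ha).2.2.1 β hc hadj
  have h2 := Finset.mem_Ico.1 hβ
  rw [h1, (hB x hx).2.2.2.2.2.1 β h2.1 h2.2]

theorem dem_nadj (hB : S_BLK) (hC : S_CLD) (x : Prm) (hx : Par x) {a β : ℕ} (ha : a ∈ x.R)
    (hβ : β ∈ x.mid) (hc : β ∈ x.cls a) (hadj : ¬ x.adj a β) :
    x.dem a β = (x.v : ℝ) / x.D - x.μ := by
  have h1 := (hC x hx a ha).2.2.2.1 β hc hadj
  have h2 := Finset.mem_Ico.1 hβ
  rw [h1, (hB x hx).2.2.2.2.2.1 β h2.1 h2.2]

theorem cls_av (hC : S_CLD) (x : Prm) (hx : Par x) {a β : ℕ} (ha : a ∈ x.R)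
    (hc : β ∈ x.cls a) : β < x.B ∧ Av x.st x.p a β := by
  have h1 := ((hC x hx a ha).1 β).1 hc
  exact ⟨h1.1, h1.2.1⟩

/-- the contribution of at most `K - g` adjacent rows -/
theorem adj_sum (hB : S_BLK) (hC : S_CLD) (x : Prm) (hx : Par x) {τ : Bool} {β : ℕ}
    (hβ : β ∈ x.mid) {s : Finset ℕ} {m : ℕ} (hs : s ⊆ Finset.Ico m (m + (x.K - x.g)))
    (hsR : ∀ a ∈ s, a ∈ x.R ∧ β ∈ x.cls a ∧ x.adj a β) {T : ℝ} (hT : 0 ≤ T)
    (h : ∀ a ∈ s, x.fr τ a β * (((x.K : ℝ) - x.g) * (x.v / x.D)) ≤ T) :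
    ∑ a ∈ s, x.fr τ a β * x.dem a β ≤ T := by
  obtain ⟨-, -, -, -, -, -, -, hKg, -, -, -, -, hX0, -⟩ := par_facts x hx
  have hKg' : (x.g : ℝ) + 8 ≤ x.K := by exact_mod_cast hKg
  have hpos : (0 : ℝ) < (x.K : ℝ) - x.g := by linarith
  have h1 : ∀ a ∈ s, x.fr τ a β * x.dem a β ≤ T / ((x.K : ℝ) - x.g) := by
    intro a ha
    rw [dem_adj hB hC x hx (hsR a ha).1 hβ (hsR a ha).2.1 (hsR a ha).2.2, le_div_iff₀ hpos]
    have := h a ha
    linarith [mul_comm ((x.K : ℝ) - x.g) ((x.v : ℝ) / x.D),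
      mul_assoc (x.fr τ a β) ((x.v : ℝ) / x.D) ((x.K : ℝ) - x.g)]
  have h2 := sum_le_ico hs (div_nonneg hT hpos.le) h1
  have h3 : ((m + (x.K - x.g) - m : ℕ) : ℝ) = (x.K : ℝ) - x.g := by
    rw [Nat.add_sub_cancel_left, Nat.cast_sub (by omega)]
  rw [h3, mul_div_cancel₀ _ hpos.ne'] at h2
  exact h2

/-- the contribution of non-adjacent rows with the same fraction -/
theorem nadj_sum (hB : S_BLK) (hC : S_CLD) (x : Prm) (hx : Par x) {τ : Bool} {β : ℕ}
    (hβ : β ∈ x.mid) {s : Finset ℕ} {m n : ℕ} (hs : s ⊆ Finset.Ico m n)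
    (hsR : ∀ a ∈ s, a ∈ x.R ∧ β ∈ x.cls a ∧ ¬ x.adj a β) {f : ℝ} (hf : 0 ≤ f)
    (h : ∀ a ∈ s, x.fr τ a β ≤ f) :
    ∑ a ∈ s, x.fr τ a β * x.dem a β ≤ ((n - m : ℕ) : ℝ) * (f * ((1 + x.η) * x.θ * x.μ)) := by
  obtain ⟨-, -, -, -, t0, -, m0, -, -, hd, hd0, -⟩ := par_facts x hx
  have n0 := hx.n0
  have hP : 0 ≤ (1 + x.η) * x.θ * x.μ := by positivity
  apply sum_le_ico hs (mul_nonneg hf hP)
  intro a ha
  rw [dem_nadj hB hC x hx (hsR a ha).1 hβ (hsR a ha).2.1 (hsR a ha).2.2]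
  calc x.fr τ a β * ((x.v : ℝ) / x.D - x.μ) ≤ f * ((x.v : ℝ) / x.D - x.μ) :=
        mul_le_mul_of_nonneg_right (h a ha) hd0
    _ ≤ _ := mul_le_mul_of_nonneg_left hd hf

/-- rows below the block, far from the bottom zone -/
theorem below1 (hB : S_BLK) (hC : S_CLD) (hA : S_AVA) (x : Prm) (hx : Par x) {τ : Bool} {β : ℕ}
    (hβ : β ∈ x.mid) (hβ2 : x.b0 + 2 * x.K ≤ β) {f1 f2 T : ℝ} (hf1 : 0 ≤ f1) (hf2 : 0 ≤ f2)
    (hT : 0 ≤ T) (h1 : ∀ a ∈ x.R, a < x.b0 + x.K → a + x.K < β → x.fr τ a β ≤ f1)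
    (h2 : ∀ a ∈ x.R, x.b0 + x.K ≤ a → a + x.K < β → x.fr τ a β ≤ f2)
    (h3 : ∀ a ∈ x.R, x.b0 + x.K ≤ a → a + x.g + 1 ≤ β → β ≤ a + x.K →
      x.fr τ a β * (((x.K : ℝ) - x.g) * (x.v / x.D)) ≤ T) :
    ∑ a ∈ x.R.filter (fun a => a < β ∧ β ∈ x.cls a), x.fr τ a β * x.dem a β ≤
      T + ((x.K * x.μ + x.J * x.μ) * f1 + (((β : ℝ) - x.b0) * x.μ - 2 * (x.K * x.μ)) * f2) *
        (1 + x.η) * x.θ := by
  obtain ⟨-, -, -, -, t0, -, m0, hKg, -⟩ := par_facts x hx
  have n0 := hx.n0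
  set s := x.R.filter (fun a => a < β ∧ β ∈ x.cls a) with hs
  have hmem : ∀ a ∈ s, a ∈ x.R ∧ a < β ∧ β ∈ x.cls a := by
    intro a ha
    rw [hs, Finset.mem_filter] at ha
    exact ⟨ha.1, ha.2.1, ha.2.2⟩
  have hb0 : x.b0 = x.K + x.J := rfl
  have hadj : ∑ a ∈ s.filter (fun a => x.adj a β), x.fr τ a β * x.dem a β ≤ T := by
    apply adj_sum hB hC x hx hβ (m := β - x.K) _ _ hT
    · intro a ha
      obtain ⟨ha, had⟩ := Finset.mem_filter.1 ha
      obtain ⟨haR, hab, hac⟩ := hmem a ha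
      obtain ⟨g1, g2⟩ := cls_av hC x hx haR hac
      have := (hA x hx a haR β g1).2.1 hab.le g2
      have h5 : β ≤ a + x.K := had.1
      apply h3 a haR <;> omega
    · intro a ha
      obtain ⟨ha, had⟩ := Finset.mem_filter.1 ha
      obtain ⟨haR, hab, hac⟩ := hmem a ha
      obtain ⟨g1, g2⟩ := cls_av hC x hx haR hac
      have := (hA x hx a haR β g1).2.1 hab.le g2
      have h5 : β ≤ a + x.K := had.1
      rw [Finset.mem_Ico]
      omega
    · intro a ha
      obtain ⟨ha, had⟩ := Finset.mem_filter.1 ha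
      obtain ⟨haR, hab, hac⟩ := hmem a ha
      exact ⟨haR, hac, had⟩
  have hn1 : ∑ a ∈ (s.filter (fun a => ¬ x.adj a β)).filter (fun a => a < x.b0 + x.K),
      x.fr τ a β * x.dem a β ≤
      ((x.b0 + x.K - (x.K + 1) : ℕ) : ℝ) * (f1 * ((1 + x.η) * x.θ * x.μ)) := by
    apply nadj_sum hB hC x hx hβ _ _ hf1
    · intro a ha
      obtain ⟨ha, hlt⟩ := Finset.mem_filter.1 ha
      obtain ⟨ha, had⟩ := Finset.mem_filter.1 ha
      obtain ⟨haR, hab, hac⟩ := hmem a ha
      have h5 : ¬ (β ≤ a + x.K ∧ a ≤ β + x.K) := had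
      apply h1 a haR hlt
      omega
    · intro a ha
      obtain ⟨ha, hlt⟩ := Finset.mem_filter.1 ha
      obtain ⟨ha, had⟩ := Finset.mem_filter.1 ha
      obtain ⟨haR, hab, hac⟩ := hmem a ha
      have h6 := Finset.mem_Icc.1 haR
      rw [Finset.mem_Ico]
      omega
    · intro a ha
      obtain ⟨ha, hlt⟩ := Finset.mem_filter.1 ha
      obtain ⟨ha, had⟩ := Finset.mem_filter.1 ha
      obtain ⟨haR, hab, hac⟩ := hmem a ha
      exact ⟨haR, hac, had⟩
  have hn2 : ∑ a ∈ (s.filter (fun a => ¬ x.adj a β)).filter (fun a => ¬ a < x.b0 + x.K),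
      x.fr τ a β * x.dem a β ≤
      ((β - x.K - (x.b0 + x.K) : ℕ) : ℝ) * (f2 * ((1 + x.η) * x.θ * x.μ)) := by
    apply nadj_sum hB hC x hx hβ _ _ hf2
    · intro a ha
      obtain ⟨ha, hlt⟩ := Finset.mem_filter.1 ha
      obtain ⟨ha, had⟩ := Finset.mem_filter.1 ha
      obtain ⟨haR, hab, hac⟩ := hmem a ha
      have h5 : ¬ (β ≤ a + x.K ∧ a ≤ β + x.K) := had
      apply h2 a haR (by omega)
      omega
    · intro a ha
      obtain ⟨ha, hlt⟩ := Finset.mem_filter.1 ha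
      obtain ⟨ha, had⟩ := Finset.mem_filter.1 ha
      obtain ⟨haR, hab, hac⟩ := hmem a ha
      have h5 : ¬ (β ≤ a + x.K ∧ a ≤ β + x.K) := had
      rw [Finset.mem_Ico]
      omega
    · intro a ha
      obtain ⟨ha, hlt⟩ := Finset.mem_filter.1 ha
      obtain ⟨ha, had⟩ := Finset.mem_filter.1 ha
      obtain ⟨haR, hab, hac⟩ := hmem a ha
      exact ⟨haR, hac, had⟩
  have hsplit := Finset.sum_filter_add_sum_filter_not s (fun a => x.adj a β)
    (fun a => x.fr τ a β * x.dem a β)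
  have hsplit2 := Finset.sum_filter_add_sum_filter_not (s.filter (fun a => ¬ x.adj a β))
    (fun a => a < x.b0 + x.K) (fun a => x.fr τ a β * x.dem a β)
  have hP : 0 ≤ (1 + x.η) * x.θ * x.μ := by positivity
  have hc1 : ((x.b0 + x.K - (x.K + 1) : ℕ) : ℝ) ≤ (x.K : ℝ) + x.J := by
    have : x.b0 + x.K - (x.K + 1) ≤ x.K + x.J := by omega
    exact_mod_cast this
  have hc2 : ((β - x.K - (x.b0 + x.K) : ℕ) : ℝ) = (β : ℝ) - x.b0 - 2 * x.K := by
    have h7 : β - x.K - (x.b0 + x.K) + (x.b0 + 2 * x.K) = β := by omega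
    have h8 : ((β - x.K - (x.b0 + x.K) : ℕ) : ℝ) + ((x.b0 : ℝ) + 2 * x.K) = β := by
      exact_mod_cast h7
    linarith
  rw [hc2] at hn2
  have hn1' := hn1.trans (mul_le_mul_of_nonneg_right hc1 (mul_nonneg hf1 hP))
  rw [← hsplit, ← hsplit2]
  calc _ ≤ T + (((x.K : ℝ) + x.J) * (f1 * ((1 + x.η) * x.θ * x.μ)) +
        ((β : ℝ) - x.b0 - 2 * x.K) * (f2 * ((1 + x.η) * x.θ * x.μ))) :=
        add_le_add hadj (add_le_add hn1' hn2)
    _ = _ := by ring

/-- rows below the block, near the bottom zone -/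
theorem below2 (hB : S_BLK) (hC : S_CLD) (hA : S_AVA) (x : Prm) (hx : Par x) {τ : Bool} {β : ℕ}
    (hβ : β ∈ x.mid) (hβ2 : β < x.b0 + 2 * x.K) {f1 T : ℝ} (hf1 : 0 ≤ f1)
    (hT : 0 ≤ T) (h1 : ∀ a ∈ x.R, a < x.b0 + x.K → a + x.K < β → x.fr τ a β ≤ f1)
    (h3 : ∀ a ∈ x.R, a + x.g + 1 ≤ β → β ≤ a + x.K →
      x.fr τ a β * (((x.K : ℝ) - x.g) * (x.v / x.D)) ≤ T) :
    ∑ a ∈ x.R.filter (fun a => a < β ∧ β ∈ x.cls a), x.fr τ a β * x.dem a β ≤
      T + (max (((β : ℝ) - x.b0) * x.μ - x.c) 0 + 2 * x.η) * f1 * (1 + x.η) * x.θ := by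
  obtain ⟨-, -, -, hμη, t0, -, m0, hKg, -, -, -, -, -, -, -, hK, hJ, -⟩ := par_facts x hx
  have n0 := hx.n0
  set s := x.R.filter (fun a => a < β ∧ β ∈ x.cls a) with hs
  have hmem : ∀ a ∈ s, a ∈ x.R ∧ a < β ∧ β ∈ x.cls a := by
    intro a ha
    rw [hs, Finset.mem_filter] at ha
    exact ⟨ha.1, ha.2.1, ha.2.2⟩
  have hb0 : x.b0 = x.K + x.J := rfl
  have hβm := Finset.mem_Ico.1 hβ
  have hadj : ∑ a ∈ s.filter (fun a => x.adj a β), x.fr τ a β * x.dem a β ≤ T := by
    apply adj_sum hB hC x hx hβ (m := β - x.K) _ _ hT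
    · intro a ha
      obtain ⟨ha, had⟩ := Finset.mem_filter.1 ha
      obtain ⟨haR, hab, hac⟩ := hmem a ha
      obtain ⟨g1, g2⟩ := cls_av hC x hx haR hac
      have := (hA x hx a haR β g1).2.1 hab.le g2
      exact h3 a haR this had.1
    · intro a ha
      obtain ⟨ha, had⟩ := Finset.mem_filter.1 ha
      obtain ⟨haR, hab, hac⟩ := hmem a ha
      obtain ⟨g1, g2⟩ := cls_av hC x hx haR hac
      have := (hA x hx a haR β g1).2.1 hab.le g2
      have h5 : β ≤ a + x.K := had.1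
      rw [Finset.mem_Ico]
      omega
    · intro a ha
      obtain ⟨ha, had⟩ := Finset.mem_filter.1 ha
      obtain ⟨haR, hab, hac⟩ := hmem a ha
      exact ⟨haR, hac, had⟩
  have hn1 : ∑ a ∈ s.filter (fun a => ¬ x.adj a β), x.fr τ a β * x.dem a β ≤
      ((β - x.K - (x.K + 1) : ℕ) : ℝ) * (f1 * ((1 + x.η) * x.θ * x.μ)) := by
    apply nadj_sum hB hC x hx hβ _ _ hf1
    · intro a ha
      obtain ⟨ha, had⟩ := Finset.mem_filter.1 ha
      obtain ⟨haR, hab, hac⟩ := hmem a ha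
      have h5 : ¬ (β ≤ a + x.K ∧ a ≤ β + x.K) := had
      apply h1 a haR <;> omega
    · intro a ha
      obtain ⟨ha, had⟩ := Finset.mem_filter.1 ha
      obtain ⟨haR, hab, hac⟩ := hmem a ha
      have h6 := Finset.mem_Icc.1 haR
      have h5 : ¬ (β ≤ a + x.K ∧ a ≤ β + x.K) := had
      rw [Finset.mem_Ico]
      omega
    · intro a ha
      obtain ⟨ha, had⟩ := Finset.mem_filter.1 ha
      obtain ⟨haR, hab, hac⟩ := hmem a ha
      exact ⟨haR, hac, had⟩
  have hsplit := Finset.sum_filter_add_sum_filter_not s (fun a => x.adj a β)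
    (fun a => x.fr τ a β * x.dem a β)
  have hP : 0 ≤ (1 + x.η) * x.θ := by positivity
  have hc2 : ((β - x.K - (x.K + 1) : ℕ) : ℝ) * x.μ ≤
      max (((β : ℝ) - x.b0) * x.μ - x.c) 0 + 2 * x.η := by
    rcases le_total (2 * x.K + 1) β with h | h
    · have h7 : β - x.K - (x.K + 1) + (2 * x.K + 1) = β := by omega
      have h8 : ((β - x.K - (x.K + 1) : ℕ) : ℝ) + (2 * (x.K : ℝ) + 1) = β := by
        exact_mod_cast h7
      have h9 : (x.b0 : ℝ) = x.K + x.J := by rw [hb0]; push_cast; ring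
      have h10 := le_max_left (((β : ℝ) - x.b0) * x.μ - x.c) 0
      have h11 : ((β - x.K - (x.K + 1) : ℕ) : ℝ) * x.μ =
          ((β : ℝ) - x.b0) * x.μ + x.J * x.μ - x.K * x.μ - x.μ := by
        rw [h9]
        have : ((β - x.K - (x.K + 1) : ℕ) : ℝ) = β - (2 * (x.K : ℝ) + 1) := by linarith
        rw [this]
        ring
      rw [h11]
      linarith
    · have h7 : β - x.K - (x.K + 1) = 0 := by omega
      rw [h7]
      have := le_max_right (((β : ℝ) - x.b0) * x.μ - x.c) 0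
      simp only [Nat.cast_zero, zero_mul]
      linarith
  rw [← hsplit]
  calc _ ≤ T + ((β - x.K - (x.K + 1) : ℕ) : ℝ) * (f1 * ((1 + x.η) * x.θ * x.μ)) :=
        add_le_add hadj hn1
    _ = T + ((β - x.K - (x.K + 1) : ℕ) : ℝ) * x.μ * (f1 * ((1 + x.η) * x.θ)) := by ring
    _ ≤ T + (max (((β : ℝ) - x.b0) * x.μ - x.c) 0 + 2 * x.η) * (f1 * ((1 + x.η) * x.θ)) := by
        have := mul_le_mul_of_nonneg_right hc2 (mul_nonneg hf1 hP)
        linarith
    _ = _ := by ring

/-- no rows below the block -/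
theorem below0 (hC : S_CLD) (hA : S_AVA) (x : Prm) (hx : Par x) {τ : Bool} {β : ℕ}
    (hβ2 : β < x.K + x.g + 2) :
    ∑ a ∈ x.R.filter (fun a => a < β ∧ β ∈ x.cls a), x.fr τ a β * x.dem a β = 0 := by
  obtain ⟨-, -, -, -, -, -, -, hKg, -⟩ := par_facts x hx
  rw [Finset.filter_false_of_mem, Finset.sum_empty]
  rintro a haR ⟨hab, hac⟩
  obtain ⟨g1, g2⟩ := cls_av hC x hx haR hac
  have := (hA x hx a haR β g1).2.1 hab.le g2
  have h6 := Finset.mem_Icc.1 haR
  omega

theorem gA_adj (x : Prm) {l : ℝ} {a β : ℕ} (hβ : β ∈ x.mid) (h : x.adj a β) :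
    x.gA l a β = if (x.b1 ≤ a + x.K ↔ β < a) then l else 1 / 2 := by
  have h2 := Finset.mem_Ico.1 hβ
  unfold Prm.gA
  rw [if_neg (by omega), if_neg (by omega), if_pos h]

theorem gA_nadj (x : Prm) {l : ℝ} {a β : ℕ} (hβ : β ∈ x.mid) (h : ¬ x.adj a β) :
    x.gA l a β = if x.b1 ≤ a + x.K then
        (if β + 2 * x.K < x.b1 then 1 / 2 - x.c / 10 else 3 / 5)
      else if a < x.b0 + x.K then
        (if x.b0 + 2 * x.K ≤ β then 1 / 2 + x.c / 10 else 2 / 5)
      else 1 / 2 := by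
  have h2 := Finset.mem_Ico.1 hβ
  unfold Prm.gA
  rw [if_neg (by omega), if_neg (by omega), if_neg h]

theorem fr_true (x : Prm) (a β : ℕ) : x.fr true a β = x.gA (x.lam a) a β := by
  unfold Prm.fr
  simp

theorem fr_false (x : Prm) (a β : ℕ) : x.fr false a β = 1 - x.gA (x.lam a) a β := by
  unfold Prm.fr
  simp

theorem adj_of (x : Prm) {a β : ℕ} (h1 : a ≤ β) (h2 : β ≤ a + x.K) : x.adj a β :=
  ⟨h2, by omega⟩

theorem nadj_of (x : Prm) {a β : ℕ} (h2 : a + x.K < β) : ¬ x.adj a β := by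
  intro h
  have := h.1
  omega

/-- part CRA -/
theorem t_CRA (hM : S_LM1) (hC : S_CLD) (hA : S_AVA) (hB : S_BLK) : S_CRA := by
  intro x hx β hβ
  obtain ⟨hc, hc2, hη, hμη, t0, th, m0, hKg, hv, hd, hd0, hX, hX0, hKgη, hK, hK', hJ, hMμ⟩ :=
    par_facts x hx
  have n0 := hx.n0
  have hβm := Finset.mem_Ico.1 hβ
  have hb0 : x.b0 = x.K + x.J := rfl
  have hb1 : x.b1 = x.K + x.J + x.M := rfl
  have hKM := hx.KM
  have hJ0 : (0 : ℝ) ≤ x.J * x.μ := by positivity
  have hy0 : 0 ≤ ((β : ℝ) - x.b0) * x.μ := by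
    have : (x.b0 : ℝ) ≤ β := by exact_mod_cast hβm.1
    exact mul_nonneg (by linarith) m0.le
  have hy1 : ((β : ℝ) - x.b0) * x.μ ≤ 1 + x.η := by
    have : (β : ℝ) ≤ x.b0 + x.M := by
      have : β ≤ x.b0 + x.M := by omega
      exact_mod_cast this
    exact (mul_le_mul_of_nonneg_right (by linarith) m0.le).trans hMμ
  have hηsq : x.η * x.η ≤ x.η := by nlinarith
  have hcsq : x.c * x.c ≤ 1 / 2 * x.c := mul_le_mul_of_nonneg_right hc2 hc.le
  have hcη : x.c * x.η ≤ 1 / 2 * x.η := mul_le_mul_of_nonneg_right hc2 n0.le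
  have hcη0 : 0 ≤ x.c * x.η := by positivity
  -- the flexible rows which are neither near the top nor near the bottom
  have hlamM : ∀ a ∈ x.R, x.b0 + x.K ≤ a → a + x.K < x.b1 →
      x.lam a * (((x.K : ℝ) - x.g) * (x.v / x.D)) ≤ (3 / 10 * x.c + 50 * x.η) * x.θ :=
    fun a ha h1 h2 => ((hM x hx a ha).2.2.2.2 h1 h2).1
  have hhalf : 1 / 2 * (((x.K : ℝ) - x.g) * (x.v / x.D)) ≤ (3 / 10 * x.c + 50 * x.η) * x.θ := by
    have : 0 ≤ x.η * x.θ := by positivity
    linarith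
  rcases Nat.lt_or_ge β (x.b0 + 2 * x.K) with hlt | hge
  · rw [if_neg (by omega)]
    rcases Nat.lt_or_ge β (x.K + x.g + 2) with hlt2 | hge2
    · rw [if_neg (by omega), below0 hC hA x hx hlt2]
      positivity
    · rw [if_pos hge2]
      -- the distance
      have hy2 : x.c - 5 * x.η ≤ ((β : ℝ) - x.b0) * x.μ := by
        have h9 : (x.b0 : ℝ) = x.K + x.J := by rw [hb0]; push_cast; ring
        have h10 : (x.K : ℝ) + x.g + 2 ≤ β := by exact_mod_cast hge2
        have h11 : ((x.g : ℝ) - x.J) * x.μ ≤ ((β : ℝ) - x.b0) * x.μ :=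
          mul_le_mul_of_nonneg_right (by linarith) m0.le
        linarith
      set y := ((β : ℝ) - x.b0) * x.μ with hy
      have hT : 0 ≤ (x.c / 2 + x.c ^ 2 / 5 - 2 / 5 * (2 * x.c - y) + 60 * x.η) * x.θ := by
        have : 0 ≤ x.c ^ 2 := by positivity
        apply mul_nonneg _ t0.le
        linarith
      have := below2 hB hC hA x hx (τ := true) hβ hlt (f1 := 2 / 5) (by norm_num) hT ?_ ?_
      · refine this.trans ?_
        unfold G1n
        rw [← hy]
        have hm0 := le_max_right (y - x.c) 0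
        have hm1 : max (y - x.c) 0 ≤ 1 + x.η := max_le (by linarith) (by linarith)
        have hmη : max (y - x.c) 0 * x.η ≤ (1 + x.η) * x.η :=
          mul_le_mul_of_nonneg_right hm1 n0.le
        have hmain : (max (y - x.c) 0 + 2 * x.η) * (2 / 5) * (1 + x.η) ≤
            2 / 5 * max (y - x.c) 0 + 5 * x.η := by
          nlinarith
        have := mul_le_mul_of_nonneg_right hmain t0.le
        have h12 : 0 ≤ x.η * x.θ := by positivity
        linarith
      · intro a ha h1 h2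
        rw [fr_true, gA_nadj x hβ (nadj_of x h2), if_neg (by omega), if_pos h1, if_neg (by omega)]
      · intro a ha h1 h2
        have hr : 2 * x.c - 4 * x.η ≤ y + (((x.b0 : ℝ) + x.K - a) * x.μ) := by
          have h10 : (a : ℝ) + x.g + 1 ≤ β := by exact_mod_cast h1
          have h11 : ((x.g : ℝ) + x.K) * x.μ ≤
              ((β : ℝ) - x.b0 + ((x.b0 : ℝ) + x.K - a)) * x.μ :=
            mul_le_mul_of_nonneg_right (by linarith) m0.le
          rw [hy]
          linarith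
        rw [fr_true, gA_adj x hβ (adj_of x (by omega) h2)]
        rcases Nat.lt_or_ge (a + x.K) x.b1 with h4 | h4
        · rw [if_pos (by constructor <;> intro <;> omega)]
          rcases Nat.lt_or_ge a (x.b0 + x.K) with h5 | h5
          · refine ((hM x hx a ha).2.2.2.1 h5).1.trans ?_
            apply mul_le_mul_of_nonneg_right _ t0.le
            linarith
          · refine (hlamM a ha h5 h4).trans ?_
            apply mul_le_mul_of_nonneg_right _ t0.le
            have h6 : ((x.b0 : ℝ) + x.K - a) * x.μ ≤ 0 := by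
              have : (x.b0 : ℝ) + x.K ≤ a := by exact_mod_cast h5
              exact mul_nonpos_of_nonpos_of_nonneg (by linarith) m0.le
            have : 0 ≤ x.c ^ 2 := by positivity
            linarith
        · rw [if_neg (by
            intro h
            have := h.1 h4
            omega)]
          refine hhalf.trans ?_
          apply mul_le_mul_of_nonneg_right _ t0.le
          have h6 : ((x.b0 : ℝ) + x.K - a) * x.μ ≤ 0 := by
            have : x.b0 + x.K ≤ a := by omega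
            have : (x.b0 : ℝ) + x.K ≤ a := by exact_mod_cast this
            exact mul_nonpos_of_nonpos_of_nonneg (by linarith) m0.le
          have : 0 ≤ x.c ^ 2 := by positivity
          linarith
  · rw [if_pos hge]
    set y := ((β : ℝ) - x.b0) * x.μ with hy
    have hT : 0 ≤ (3 / 10 * x.c + 50 * x.η) * x.θ := by positivity
    have := below1 hB hC hA x hx (τ := true) hβ hge (f1 := 1 / 2 + x.c / 10) (f2 := 1 / 2)
      (by positivity) (by norm_num) hT ?_ ?_ ?_
    · refine this.trans ?_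
      unfold G1f
      rw [← hy]
      have hmain : ((x.K * x.μ + x.J * x.μ) * (1 / 2 + x.c / 10) +
          (y - 2 * (x.K * x.μ)) * (1 / 2)) * (1 + x.η) ≤
          (y - x.c) / 2 + x.c ^ 2 / 10 + 5 * x.η := by
        have hE : (x.K * x.μ + x.J * x.μ) * (1 / 2 + x.c / 10) +
            (y - 2 * (x.K * x.μ)) * (1 / 2) ≤ (y - x.c) / 2 + x.c ^ 2 / 10 + 2 * x.η := by
          have h1 : x.K * x.μ * x.c ≤ (x.c + x.η) * x.c := mul_le_mul_of_nonneg_right hK hc.le
          have h2 : x.J * x.μ * x.c ≤ x.η * x.c := mul_le_mul_of_nonneg_right hJ hc.le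
          nlinarith
        have hE1 : (y - x.c) / 2 + x.c ^ 2 / 10 + 2 * x.η ≤ 1 := by nlinarith
        have hE2 := mul_le_mul_of_nonneg_right hE (by linarith : 0 ≤ 1 + x.η)
        nlinarith
      have := mul_le_mul_of_nonneg_right hmain t0.le
      have h12 : 0 ≤ x.η * x.θ := by positivity
      linarith
    · intro a ha h1 h2
      rw [fr_true, gA_nadj x hβ (nadj_of x h2), if_neg (by omega), if_pos h1, if_pos hge]
    · intro a ha h1 h2
      rw [fr_true, gA_nadj x hβ (nadj_of x h2), if_neg (by omega), if_neg (by omega)]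
    · intro a ha h1 h2 h3
      rw [fr_true, gA_adj x hβ (adj_of x (by omega) h3)]
      rcases Nat.lt_or_ge (a + x.K) x.b1 with h4 | h4
      · rw [if_pos (by constructor <;> intro <;> omega)]
        exact hlamM a ha h1 h4
      · rw [if_neg (by
          intro h
          have := h.1 h4
          omega)]
        exact hhalf

/-- part CRB -/
theorem t_CRB (hM : S_LM1) (hC : S_CLD) (hA : S_AVA) (hB : S_BLK) : S_CRB := by
  intro x hx β hβ
  obtain ⟨hc, hc2, hη, hμη, t0, th, m0, hKg, hv, hd, hd0, hX, hX0, hKgη, hK, hK', hJ, hMμ⟩ :=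
    par_facts x hx
  have n0 := hx.n0
  have hβm := Finset.mem_Ico.1 hβ
  have hb0 : x.b0 = x.K + x.J := rfl
  have hb1 : x.b1 = x.K + x.J + x.M := rfl
  have hKM := hx.KM
  have hJ0 : (0 : ℝ) ≤ x.J * x.μ := by positivity
  have hy0 : 0 ≤ ((β : ℝ) - x.b0) * x.μ := by
    have : (x.b0 : ℝ) ≤ β := by exact_mod_cast hβm.1
    exact mul_nonneg (by linarith) m0.le
  have hy1 : ((β : ℝ) - x.b0) * x.μ ≤ 1 + x.η := by
    have : (β : ℝ) ≤ x.b0 + x.M := by
      have : β ≤ x.b0 + x.M := by omega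
      exact_mod_cast this
    exact (mul_le_mul_of_nonneg_right (by linarith) m0.le).trans hMμ
  have hηsq : x.η * x.η ≤ x.η := by nlinarith
  have hcsq : x.c * x.c ≤ 1 / 2 * x.c := mul_le_mul_of_nonneg_right hc2 hc.le
  have hcη : x.c * x.η ≤ 1 / 2 * x.η := mul_le_mul_of_nonneg_right hc2 n0.le
  have hcη0 : 0 ≤ x.c * x.η := by positivity
  have hcsq0 : 0 ≤ x.c ^ 2 := by positivity
  have hcsq1 : x.c ^ 2 ≤ 1 / 2 * x.c := by rw [pow_two]; exact hcsq
  have hlamM : ∀ a ∈ x.R, x.b0 + x.K ≤ a → a + x.K < x.b1 →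
      (1 - x.lam a) * (((x.K : ℝ) - x.g) * (x.v / x.D)) ≤ (3 / 10 * x.c + 50 * x.η) * x.θ :=
    fun a ha h1 h2 => ((hM x hx a ha).2.2.2.2 h1 h2).2
  have hhalf : (1 - 1 / 2) * (((x.K : ℝ) - x.g) * (x.v / x.D)) ≤
      (3 / 10 * x.c + 50 * x.η) * x.θ := by
    have : 0 ≤ x.η * x.θ := by positivity
    linarith
  rcases Nat.lt_or_ge β (x.b0 + 2 * x.K) with hlt | hge
  · rw [if_neg (by omega)]
    rcases Nat.lt_or_ge β (x.K + x.g + 2) with hlt2 | hge2
    · rw [if_neg (by omega), if_neg (by omega), below0 hC hA x hx hlt2]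
      positivity
    · -- the distance
      have h9 : (x.b0 : ℝ) = x.K + x.J := by rw [hb0]; push_cast; ring
      have hy2 : x.c - 5 * x.η ≤ ((β : ℝ) - x.b0) * x.μ := by
        have h10 : (x.K : ℝ) + x.g + 2 ≤ β := by exact_mod_cast hge2
        have h11 : ((x.g : ℝ) - x.J) * x.μ ≤ ((β : ℝ) - x.b0) * x.μ :=
          mul_le_mul_of_nonneg_right (by linarith) m0.le
        linarith
      have hf : ∀ a ∈ x.R, a < x.b0 + x.K → a + x.K < β → x.fr false a β ≤ 3 / 5 := by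
        intro a ha h1 h2
        rw [fr_false, gA_nadj x hβ (nadj_of x h2), if_neg (by omega), if_pos h1,
          if_neg (by omega)]
        norm_num
      -- rows near the bottom
      have hn : ∀ a ∈ x.R, a < x.b0 + x.g + 1 → a + x.g + 1 ≤ β → β ≤ a + x.K →
          (1 - x.lam a) * (((x.K : ℝ) - x.g) * (x.v / x.D)) ≤
          (x.c / 10 - x.c ^ 2 / 5 + 2 / 5 * (2 * x.c - ((β : ℝ) - x.b0) * x.μ) +
            60 * x.η) * x.θ := by
        intro a ha h1 h2 h3
        have h4 := ((hM x hx a ha).2.2.2.1 (by omega)).2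
        rw [if_pos h1] at h4
        refine h4.trans ?_
        apply mul_le_mul_of_nonneg_right _ t0.le
        have h10 : (β : ℝ) ≤ a + x.K := by exact_mod_cast h3
        have h11 : ((x.b0 : ℝ) + x.K - a) * x.μ ≤ (2 * (x.K : ℝ) - ((β : ℝ) - x.b0)) * x.μ :=
          mul_le_mul_of_nonneg_right (by linarith) m0.le
        have h12 : (2 * (x.K : ℝ) - ((β : ℝ) - x.b0)) * x.μ =
            2 * (x.K * x.μ) - ((β : ℝ) - x.b0) * x.μ := by ring
        linarith
      have hfin : ∀ T' : ℝ, 0 ≤ T' →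
          (T' + 60 * x.η) * x.θ + (max (((β : ℝ) - x.b0) * x.μ - x.c) 0 + 2 * x.η) *
            (3 / 5) * (1 + x.η) * x.θ ≤
          (3 / 5 * max (((β : ℝ) - x.b0) * x.μ - x.c) 0 + T' + 100 * x.η) * x.θ := by
        intro T' hT'
        set y := ((β : ℝ) - x.b0) * x.μ with hy
        have hm0 := le_max_right (y - x.c) 0
        have hm1 : max (y - x.c) 0 ≤ 1 + x.η := max_le (by linarith) (by linarith)
        have hmη : max (y - x.c) 0 * x.η ≤ (1 + x.η) * x.η :=
          mul_le_mul_of_nonneg_right hm1 n0.le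
        have hmain : (max (y - x.c) 0 + 2 * x.η) * (3 / 5) * (1 + x.η) ≤
            3 / 5 * max (y - x.c) 0 + 5 * x.η := by
          nlinarith
        have := mul_le_mul_of_nonneg_right hmain t0.le
        have h12 : 0 ≤ x.η * x.θ := by positivity
        linarith
      rcases Nat.lt_or_ge β (x.b0 + 2 * x.g + 2) with hlt3 | hge3
      · rw [if_neg (by omega), if_pos hge2]
        have hy3 : ((β : ℝ) - x.b0) * x.μ ≤ 2 * x.c + 2 * x.η := by
          have h10 : (β : ℝ) ≤ x.b0 + 2 * x.K := by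
            have : β ≤ x.b0 + 2 * x.K := by omega
            exact_mod_cast this
          have h11 : ((β : ℝ) - x.b0) * x.μ ≤ (2 * (x.K : ℝ)) * x.μ :=
            mul_le_mul_of_nonneg_right (by linarith) m0.le
          linarith
        have hT0 : 0 ≤ x.c / 10 - x.c ^ 2 / 5 + 2 / 5 * (2 * x.c - ((β : ℝ) - x.b0) * x.μ) +
            60 * x.η := by linarith
        have := below2 hB hC hA x hx (τ := false) hβ hlt (f1 := 3 / 5) (by norm_num)
          (mul_nonneg hT0 t0.le) hf ?_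
        · refine this.trans ?_
          unfold G2n
          set y := ((β : ℝ) - x.b0) * x.μ with hy
          have hm0 := le_max_right (y - x.c) 0
          have hm1 : max (y - x.c) 0 ≤ 1 + x.η := max_le (by linarith) (by linarith)
          have hmη : max (y - x.c) 0 * x.η ≤ (1 + x.η) * x.η :=
            mul_le_mul_of_nonneg_right hm1 n0.le
          have hmain : (max (y - x.c) 0 + 2 * x.η) * (3 / 5) * (1 + x.η) ≤
              3 / 5 * max (y - x.c) 0 + 5 * x.η := by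
            nlinarith
          have := mul_le_mul_of_nonneg_right hmain t0.le
          have h12 : 0 ≤ x.η * x.θ := by positivity
          linarith
        · intro a ha h1 h2
          rw [fr_false, gA_adj x hβ (adj_of x (by omega) h2),
            if_pos (by constructor <;> intro <;> omega)]
          exact hn a ha (by omega) h1 h2
      · rw [if_pos hge3]
        set y := ((β : ℝ) - x.b0) * x.μ with hy
        have hT0 : 0 ≤ max (x.c / 10 - x.c ^ 2 / 5 + 2 / 5 * (2 * x.c - y))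
            (2 / 5 * x.c - x.c ^ 2 / 5) :=
          le_max_of_le_right (by linarith)
        have hGG : max (G2n x.c y) (G2m x.c y) = 3 / 5 * max (y - x.c) 0 +
            max (x.c / 10 - x.c ^ 2 / 5 + 2 / 5 * (2 * x.c - y))
            (2 / 5 * x.c - x.c ^ 2 / 5) := by
          rw [← max_add_add_left]
          unfold G2n G2m
          congr 1 <;> ring
        have := below2 hB hC hA x hx (τ := false) hβ hlt (f1 := 3 / 5) (by norm_num)
          (T := (max (x.c / 10 - x.c ^ 2 / 5 + 2 / 5 * (2 * x.c - y))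
            (2 / 5 * x.c - x.c ^ 2 / 5) + 60 * x.η) * x.θ)
          (mul_nonneg (by linarith) t0.le) hf ?_
        · refine this.trans ((hfin _ hT0).trans ?_)
          rw [hGG]
        · intro a ha h1 h2
          rw [fr_false, gA_adj x hβ (adj_of x (by omega) h2)]
          have hmx := le_max_right (x.c / 10 - x.c ^ 2 / 5 + 2 / 5 * (2 * x.c - y))
            (2 / 5 * x.c - x.c ^ 2 / 5)
          have hmx' := le_max_left (x.c / 10 - x.c ^ 2 / 5 + 2 / 5 * (2 * x.c - y))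
            (2 / 5 * x.c - x.c ^ 2 / 5)
          rcases Nat.lt_or_ge (a + x.K) x.b1 with h4 | h4
          · rw [if_pos (by constructor <;> intro <;> omega)]
            rcases Nat.lt_or_ge a (x.b0 + x.K) with h5 | h5
            · rcases Nat.lt_or_ge a (x.b0 + x.g + 1) with h6 | h6
              · refine (hn a ha h6 h1 h2).trans ?_
                apply mul_le_mul_of_nonneg_right _ t0.le
                linarith
              · have h7 := ((hM x hx a ha).2.2.2.1 h5).2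
                rw [if_neg (by omega)] at h7
                refine h7.trans ?_
                apply mul_le_mul_of_nonneg_right _ t0.le
                have h10 : (x.b0 : ℝ) + x.g + 1 ≤ a := by exact_mod_cast h6
                have h11 : ((x.b0 : ℝ) + x.K - a) * x.μ ≤ ((x.K : ℝ) - x.g) * x.μ :=
                  mul_le_mul_of_nonneg_right (by linarith) m0.le
                linarith
            · refine (hlamM a ha h5 h4).trans ?_
              apply mul_le_mul_of_nonneg_right _ t0.le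
              linarith
          · rw [if_neg (by
              intro h
              have := h.1 h4
              omega)]
            refine hhalf.trans ?_
            apply mul_le_mul_of_nonneg_right _ t0.le
            linarith
  · rw [if_pos hge]
    set y := ((β : ℝ) - x.b0) * x.μ with hy
    have hT : 0 ≤ (3 / 10 * x.c + 50 * x.η) * x.θ := by positivity
    have := below1 hB hC hA x hx (τ := false) hβ hge (f1 := 1 / 2 - x.c / 10) (f2 := 1 / 2)
      (by linarith) (by norm_num) hT ?_ ?_ ?_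
    · refine this.trans ?_
      unfold G2f
      rw [← hy]
      have hmain : ((x.K * x.μ + x.J * x.μ) * (1 / 2 - x.c / 10) +
          (y - 2 * (x.K * x.μ)) * (1 / 2)) * (1 + x.η) ≤
          (y - x.c) / 2 - x.c ^ 2 / 10 + 5 * x.η := by
        have hE : (x.K * x.μ + x.J * x.μ) * (1 / 2 - x.c / 10) +
            (y - 2 * (x.K * x.μ)) * (1 / 2) ≤ (y - x.c) / 2 - x.c ^ 2 / 10 + 2 * x.η := by
          have h1 : (x.c - x.η) * x.c ≤ x.K * x.μ * x.c := mul_le_mul_of_nonneg_right hK' hc.le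
          have h2 : 0 ≤ x.J * x.μ * x.c := mul_nonneg hJ0 hc.le
          nlinarith
        have hE1 : (y - x.c) / 2 - x.c ^ 2 / 10 + 2 * x.η ≤ 1 := by nlinarith
        have hE2 := mul_le_mul_of_nonneg_right hE (by linarith : 0 ≤ 1 + x.η)
        nlinarith
      have := mul_le_mul_of_nonneg_right hmain t0.le
      have h12 : 0 ≤ x.η * x.θ := by positivity
      linarith
    · intro a ha h1 h2
      rw [fr_false, gA_nadj x hβ (nadj_of x h2), if_neg (by omega), if_pos h1, if_pos hge]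
      linarith
    · intro a ha h1 h2
      rw [fr_false, gA_nadj x hβ (nadj_of x h2), if_neg (by omega), if_neg (by omega)]
      norm_num
    · intro a ha h1 h2 h3
      rw [fr_false, gA_adj x hβ (adj_of x (by omega) h3)]
      rcases Nat.lt_or_ge (a + x.K) x.b1 with h4 | h4
      · rw [if_pos (by constructor <;> intro <;> omega)]
        exact hlamM a ha h1 h4
      · rw [if_neg (by
          intro h
          have := h.1 h4
          omega)]
        exact hhalf

end Pool.Agent.H50.HW
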